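import Pool.Agent.Helper53.G4.Defs

/-!
Basic facts on faces of finite vector configurations.
-/

set_option autoImplicit false
set_option linter.unusedSectionVars false
set_option linter.unusedVariables false

namespace Pool.Agent.Helper53.G4

open Finset

variable {ι : Type*} [DecidableEq ι] {E : Type*} [AddCommGroup E] [Module ℝ E]

/-- The span of a label set. -/
abbrev sp (v : ι → E) (A : Finset ι) : Submodule ℝ E := Submodule.span ℝ (v '' (A : Set ι))

lemma mem_sp {v : ι → E} {A : Finset ι} {i : ι} (hi : i ∈ A) : v i ∈ sp v A :=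
  Submodule.subset_span ⟨i, hi, rfl⟩

lemma sp_mono {v : ι → E} {A B : Finset ι} (h : A ⊆ B) : sp v A ≤ sp v B :=
  Submodule.span_mono (Set.image_mono (by exact_mod_cast h))

lemma sp_insert (v : ι → E) (A : Finset ι) (i : ι) :
    sp v (insert i A) = Submodule.span ℝ {v i} ⊔ sp v A := by
  unfold sp
  rw [Finset.coe_insert, Set.image_insert_eq, Submodule.span_insert]

lemma sp_union (v : ι → E) (A B : Finset ι) : sp v (A ∪ B) = sp v A ⊔ sp v B := by
  unfold sp
  rw [Finset.coe_union, Set.image_union, Submodule.span_union]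

lemma sp_le_iff {v : ι → E} {A : Finset ι} {S : Submodule ℝ E} :
    sp v A ≤ S ↔ ∀ i ∈ A, v i ∈ S := by
  unfold sp
  rw [Submodule.span_le]
  constructor
  · intro h i hi
    exact h ⟨i, hi, rfl⟩
  · rintro h _ ⟨i, hi, rfl⟩
    exact h i hi

lemma zero_on_sp {v : ι → E} {A : Finset ι} {h : Module.Dual ℝ E} (hz : ∀ i ∈ A, h (v i) = 0)
    {x : E} (hx : x ∈ sp v A) : h x = 0 := by
  have : sp v A ≤ LinearMap.ker h := sp_le_iff.mpr (fun i hi => hz i hi)
  exact this hx

/-- A face contains every label of `V` whose vector is in its span. -/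
lemma IsFace.mem_of_mem_sp {v : ι → E} {V A : Finset ι} (hA : IsFace v V A) {i : ι} (hi : i ∈ V)
    (hs : v i ∈ sp v A) : i ∈ A := by
  obtain ⟨_, h, h0, hn⟩ := hA
  by_contra hc
  have := hn i hi hc
  rw [zero_on_sp h0 hs] at this
  exact lt_irrefl _ this

lemma Exposes.le {v : ι → E} {V A : Finset ι} {h : Module.Dual ℝ E} (he : Exposes v V A h)
    {i : ι} (hi : i ∈ V) : h (v i) ≤ 0 := by
  by_cases hA : i ∈ A
  · rw [he.1 i hA]
  · exact (he.2 i hi hA).le

lemma Exposes.eq_zero_iff {v : ι → E} {V A : Finset ι} {h : Module.Dual ℝ E}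
    (he : Exposes v V A h) {i : ι} (hi : i ∈ V) : h (v i) = 0 ↔ i ∈ A := by
  constructor
  · intro h0
    by_contra hc
    have := he.2 i hi hc
    rw [h0] at this
    exact lt_irrefl _ this
  · exact he.1 i

lemma Exposes.smul {v : ι → E} {V A : Finset ι} {h : Module.Dual ℝ E} (he : Exposes v V A h)
    {c : ℝ} (hc : 0 < c) : Exposes v V A (c • h) := by
  constructor
  · intro i hi
    simp [he.1 i hi]
  · intro i hi hA
    have := he.2 i hi hA
    simp only [LinearMap.smul_apply, smul_eq_mul]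
    exact mul_neg_of_pos_of_neg hc this

lemma Exposes.add {v : ι → E} {V A B : Finset ι} {h k : Module.Dual ℝ E} (he : Exposes v V A h)
    (hk : Exposes v V B k) : Exposes v V (A ∩ B) (h + k) := by
  constructor
  · intro i hi
    rw [Finset.mem_inter] at hi
    simp [he.1 i hi.1, hk.1 i hi.2]
  · intro i hi hAB
    rw [Finset.mem_inter, not_and_or] at hAB
    rw [LinearMap.add_apply]
    rcases hAB with hA | hB
    · have h1 := he.2 i hi hA
      have h2 := hk.le hi
      linarith
    · have h1 := hk.2 i hi hB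
      have h2 := he.le hi
      linarith

lemma IsFace.inter {v : ι → E} {V A B : Finset ι} (hA : IsFace v V A) (hB : IsFace v V B) :
    IsFace v V (A ∩ B) := by
  obtain ⟨hAV, h, hh⟩ := hA
  obtain ⟨_, k, hk⟩ := hB
  exact ⟨Finset.inter_subset_left.trans hAV, h + k, hh.add hk⟩

lemma IsFace.self {v : ι → E} {V : Finset ι} : IsFace v V V :=
  ⟨Finset.Subset.refl _, 0, fun _ _ => rfl, fun i hi hc => absurd hi hc⟩

lemma IsFace.restrict {v : ι → E} {V W A : Finset ι} (hA : IsFace v V A) (hW : W ⊆ V)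
    (hAW : A ⊆ W) : IsFace v W A := by
  obtain ⟨_, h, h0, hn⟩ := hA
  exact ⟨hAW, h, h0, fun i hi hc => hn i (hW hi) hc⟩

lemma IsFace.restrict_inter {v : ι → E} {V W A : Finset ι} (hA : IsFace v V A) (hW : W ⊆ V) :
    IsFace v W (A ∩ W) := by
  obtain ⟨_, h, h0, hn⟩ := hA
  refine ⟨Finset.inter_subset_right, h, fun i hi => h0 i (Finset.mem_inter.mp hi).1,
    fun i hi hc => hn i (hW hi) (fun hA => hc (Finset.mem_inter.mpr ⟨hA, hi⟩))⟩

/-- Combining an exposing functional of `A` in `V` with one that is non-positive on `A`. -/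
lemma exists_combine {v : ι → E} {V A : Finset ι} {h : Module.Dual ℝ E} (he : Exposes v V A h)
    (k : Module.Dual ℝ E) : ∃ N : ℝ, 0 < N ∧ ∀ M : ℝ, N ≤ M → ∀ i ∈ V, i ∉ A →
      (k + M • h) (v i) < 0 := by
  classical
  have : ∀ s : Finset ι, (∀ i ∈ s, h (v i) < 0) → ∃ N : ℝ, 0 < N ∧ ∀ M : ℝ, N ≤ M → ∀ i ∈ s,
      (k + M • h) (v i) < 0 := by
    intro s
    induction s using Finset.induction_on with
    | empty => intro _; exact ⟨1, one_pos, fun M _ i hi => absurd hi (Finset.notMem_empty _)⟩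
    | insert a s ha ih =>
      intro hs
      obtain ⟨N, hN, hM⟩ := ih (fun i hi => hs i (Finset.mem_insert_of_mem hi))
      have h1 : h (v a) < 0 := hs a (Finset.mem_insert_self _ _)
      refine ⟨max N (|k (v a)| / (-h (v a)) + 1), lt_max_of_lt_left hN, ?_⟩
      intro M hMN i hi
      rcases Finset.mem_insert.mp hi with rfl | hi
      · have h2 : |k (v i)| / (-h (v i)) + 1 ≤ M := le_trans (le_max_right _ _) hMN
        have h3 : 0 < -h (v i) := by linarith
        have h4 : |k (v i)| / (-h (v i)) * (-h (v i)) = |k (v i)| :=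
          div_mul_cancel₀ _ h3.ne'
        have h5 : (|k (v i)| / (-h (v i)) + 1) * (-h (v i)) ≤ M * (-h (v i)) :=
          mul_le_mul_of_nonneg_right h2 h3.le
        simp only [LinearMap.add_apply, LinearMap.smul_apply, smul_eq_mul]
        have h6 := le_abs_self (k (v i))
        nlinarith
      · exact hM M (le_trans (le_max_left _ _) hMN) i hi
  obtain ⟨N, hN, hM⟩ := this (V.filter (fun i => i ∉ A)) (by
    intro i hi
    rw [Finset.mem_filter] at hi
    exact he.2 i hi.1 hi.2)
  refine ⟨N, hN, fun M hMN i hi hA => hM M hMN i (Finset.mem_filter.mpr ⟨hi, hA⟩)⟩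

lemma Exposes.trans {v : ι → E} {V A D : Finset ι} {h k : Module.Dual ℝ E}
    (he : Exposes v V A h) (hk : Exposes v A D k) (hD : D ⊆ A) :
    ∃ N : ℝ, 0 < N ∧ ∀ M : ℝ, N ≤ M → Exposes v V D (k + M • h) := by
  obtain ⟨N, hN, hM⟩ := exists_combine he k
  refine ⟨N, hN, fun M hMN => ⟨?_, ?_⟩⟩
  · intro i hi
    simp [hk.1 i hi, he.1 i (hD hi)]
  · intro i hi hiD
    by_cases hA : i ∈ A
    · have := hk.2 i hA hiD
      simp only [LinearMap.add_apply, LinearMap.smul_apply, smul_eq_mul, he.1 i hA, mul_zero,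
        add_zero]
      exact this
    · exact hM M hMN i hi hA

lemma IsFace.trans {v : ι → E} {V A D : Finset ι} (hA : IsFace v V A) (hD : IsFace v A D) :
    IsFace v V D := by
  obtain ⟨hAV, h, hh⟩ := hA
  obtain ⟨hDA, k, hk⟩ := hD
  obtain ⟨N, _, hM⟩ := hh.trans hk hDA
  exact ⟨hDA.trans hAV, k + N • h, hM N le_rfl⟩

/-! ### Ranks -/

section Rank

variable [FiniteDimensional ℝ E]

lemma rk_mono {v : ι → E} {A B : Finset ι} (h : A ⊆ B) : rk v A ≤ rk v B :=
  Submodule.finrank_mono (sp_mono h)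

lemma sp_eq_of_rk_eq {v : ι → E} {A B : Finset ι} (h : A ⊆ B) (hr : rk v B ≤ rk v A) :
    sp v A = sp v B :=
  Submodule.eq_of_le_of_finrank_le (sp_mono h) hr

lemma rk_insert_le (v : ι → E) (A : Finset ι) (i : ι) : rk v (insert i A) ≤ rk v A + 1 := by
  unfold rk
  rw [show Submodule.span ℝ (v '' ((insert i A : Finset ι) : Set ι)) =
    Submodule.span ℝ {v i} ⊔ Submodule.span ℝ (v '' (A : Set ι)) from sp_insert v A i]
  have h1 := Submodule.finrank_add_le_finrank_add_finrank (Submodule.span ℝ {v i})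
    (Submodule.span ℝ (v '' (A : Set ι)))
  have h2 : Module.finrank ℝ (Submodule.span ℝ ({v i} : Set E)) ≤ 1 := by
    have := finrank_span_le_card (R := ℝ) ({v i} : Set E)
    simpa using this
  omega

lemma rk_insert_of_notMem {v : ι → E} {A : Finset ι} {i : ι} (hi : v i ∉ sp v A) :
    rk v (insert i A) = rk v A + 1 := by
  apply le_antisymm (rk_insert_le v A i)
  have hlt : sp v A < sp v (insert i A) := by
    refine lt_of_le_of_ne (sp_mono (Finset.subset_insert _ _)) ?_
    intro hc
    apply hi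
    rw [hc]
    exact mem_sp (Finset.mem_insert_self _ _)
  exact Submodule.finrank_lt_finrank_of_lt hlt

lemma rk_le_card (v : ι → E) (A : Finset ι) : rk v A ≤ A.card := by
  induction A using Finset.induction_on with
  | empty => simp [rk]
  | insert a s ha ih =>
    rw [Finset.card_insert_of_notMem ha]
    have := rk_insert_le v s a
    omega

/-- Faces with nested labels and equal rank are equal. -/
lemma IsFace.eq_of_rk {v : ι → E} {V A B : Finset ι} (hA : IsFace v V A) (hB : B ⊆ V)
    (hAB : A ⊆ B) (hr : rk v B ≤ rk v A) : A = B := by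
  apply Finset.Subset.antisymm hAB
  intro i hi
  apply hA.mem_of_mem_sp (hB hi)
  rw [sp_eq_of_rk_eq hAB hr]
  exact mem_sp hi

/-- a functional that vanishes on a subspace but not at a given vector -/
lemma exists_dual_of_notMem {S : Submodule ℝ E} {x : E} (hx : x ∉ S) :
    ∃ k : Module.Dual ℝ E, (∀ y ∈ S, k y = 0) ∧ 0 < k x := by
  obtain ⟨f, hf1, hf2⟩ := Submodule.exists_le_ker_of_notMem hx
  rcases lt_or_gt_of_ne hf1 with h | h
  · refine ⟨-f, fun y hy => ?_, ?_⟩
    · have : f y = 0 := hf2 hy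
      simp [this]
    · simp only [LinearMap.neg_apply]
      linarith
  · exact ⟨f, fun y hy => hf2 hy, h⟩

/-- Zero set of a functional in `V`. -/
noncomputable def zs (v : ι → E) (V : Finset ι) (h : Module.Dual ℝ E) : Finset ι := by
  classical exact V.filter (fun i => h (v i) = 0)

omit [FiniteDimensional ℝ E] in
lemma mem_zs {v : ι → E} {V : Finset ι} {h : Module.Dual ℝ E} {i : ι} :
    i ∈ zs v V h ↔ i ∈ V ∧ h (v i) = 0 := by
  unfold zs
  rw [Finset.mem_filter]

omit [FiniteDimensional ℝ E] in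
lemma zs_subset {v : ι → E} {V : Finset ι} {h : Module.Dual ℝ E} : zs v V h ⊆ V :=
  fun _ hi => (mem_zs.mp hi).1

omit [FiniteDimensional ℝ E] in
lemma exposes_zs {v : ι → E} {V : Finset ι} {h : Module.Dual ℝ E}
    (hle : ∀ i ∈ V, h (v i) ≤ 0) : Exposes v V (zs v V h) h :=
  ⟨fun _ hi => (mem_zs.mp hi).2, fun i hi hc => lt_of_le_of_ne (hle i hi)
    (fun h0 => hc (mem_zs.mpr ⟨hi, h0⟩))⟩

omit [FiniteDimensional ℝ E] in
lemma isFace_zs {v : ι → E} {V : Finset ι} {h : Module.Dual ℝ E}
    (hle : ∀ i ∈ V, h (v i) ≤ 0) : IsFace v V (zs v V h) :=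
  ⟨zs_subset, h, exposes_zs hle⟩

/-- One rotation step. -/
lemma rot_step {v : ι → E} {V : Finset ι} {h : Module.Dual ℝ E} (hle : ∀ i ∈ V, h (v i) ≤ 0)
    (y : E) (hr : rk v (zs v V h) + 2 ≤ rk v V) :
    ∃ h' : Module.Dual ℝ E, (∀ i ∈ V, h' (v i) ≤ 0) ∧ zs v V h ⊆ zs v V h' ∧ h' y = h y ∧
      rk v (zs v V h) < rk v (zs v V h') := by
  classical
  set Z := zs v V h with hZ
  set S : Submodule ℝ E := Submodule.span ℝ {y} ⊔ sp v Z with hS
  have hSr : Module.finrank ℝ S ≤ rk v Z + 1 := by
    have h1 := Submodule.finrank_add_le_finrank_add_finrank (Submodule.span ℝ {y}) (sp v Z)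
    have h2 : Module.finrank ℝ (Submodule.span ℝ ({y} : Set E)) ≤ 1 := by
      have := finrank_span_le_card (R := ℝ) ({y} : Set E)
      simpa using this
    have h3 : Module.finrank ℝ (sp v Z) = rk v Z := rfl
    rw [hS]
    omega
  obtain ⟨i0, hi0, hi0S⟩ : ∃ i ∈ V, v i ∉ S := by
    by_contra hcon
    push Not at hcon
    have : sp v V ≤ S := sp_le_iff.mpr hcon
    have h4 := Submodule.finrank_mono this
    have h5 : Module.finrank ℝ (sp v V) = rk v V := rfl
    omega
  obtain ⟨k, hk0, hkpos⟩ := exists_dual_of_notMem hi0S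
  have hkZ : ∀ i ∈ Z, k (v i) = 0 := fun i hi => hk0 _ (Submodule.mem_sup_right (mem_sp hi))
  have hky : k y = 0 := hk0 _ (Submodule.mem_sup_left (Submodule.mem_span_singleton_self y))
  set P : Finset ι := V.filter (fun i => 0 < k (v i)) with hP
  have hPne : P.Nonempty := ⟨i0, Finset.mem_filter.mpr ⟨hi0, hkpos⟩⟩
  obtain ⟨m, hmP, hmin⟩ := Finset.exists_min_image P (fun i => (-h (v i)) / k (v i)) hPne
  have hmV : m ∈ V := (Finset.mem_filter.mp hmP).1
  have hmk : 0 < k (v m) := (Finset.mem_filter.mp hmP).2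
  set t : ℝ := (-h (v m)) / k (v m) with ht
  have htnn : 0 ≤ t := div_nonneg (by have := hle m hmV; linarith) hmk.le
  have htm : h (v m) + t * k (v m) = 0 := by
    rw [ht]
    field_simp
    ring
  refine ⟨h + t • k, ?_, ?_, ?_, ?_⟩
  · intro i hi
    simp only [LinearMap.add_apply, LinearMap.smul_apply, smul_eq_mul]
    by_cases hik : 0 < k (v i)
    · have h1 := hmin i (Finset.mem_filter.mpr ⟨hi, hik⟩)
      have h2 : t ≤ (-h (v i)) / k (v i) := h1
      rw [le_div_iff₀ hik] at h2
      linarith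
    · push Not at hik
      have h1 := hle i hi
      have h2 : t * k (v i) ≤ 0 := mul_nonpos_of_nonneg_of_nonpos htnn hik
      linarith
  · intro i hi
    rw [mem_zs]
    refine ⟨zs_subset hi, ?_⟩
    simp only [LinearMap.add_apply, LinearMap.smul_apply, smul_eq_mul]
    rw [(mem_zs.mp hi).2, hkZ i hi]
    ring
  · simp only [LinearMap.add_apply, LinearMap.smul_apply, smul_eq_mul, hky]
    ring
  · have hmem : m ∈ zs v V (h + t • k) := by
      rw [mem_zs]
      refine ⟨hmV, ?_⟩
      simp only [LinearMap.add_apply, LinearMap.smul_apply, smul_eq_mul]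
      exact htm
    have hsub : insert m Z ⊆ zs v V (h + t • k) := by
      intro i hi
      rcases Finset.mem_insert.mp hi with rfl | hi
      · exact hmem
      · rw [mem_zs]
        refine ⟨zs_subset hi, ?_⟩
        simp only [LinearMap.add_apply, LinearMap.smul_apply, smul_eq_mul]
        rw [(mem_zs.mp hi).2, hkZ i hi]
        ring
    have hnot : v m ∉ sp v Z := by
      intro hc
      have := zero_on_sp hkZ hc
      linarith
    have h1 := rk_mono (v := v) hsub
    rw [rk_insert_of_notMem hnot] at h1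
    omega

/-- Rotation lemma: a supporting functional can be rotated to one whose zero set has corank one,
keeping its zero set and its value at a vector `y` of the span. -/
lemma rot {v : ι → E} {V : Finset ι} {h : Module.Dual ℝ E} (hle : ∀ i ∈ V, h (v i) ≤ 0)
    {y : E} (hy : y ∈ sp v V) (hne : h y ≠ 0) :
    ∃ h' : Module.Dual ℝ E, (∀ i ∈ V, h' (v i) ≤ 0) ∧ zs v V h ⊆ zs v V h' ∧ h' y = h y ∧
      IsFacet v V (zs v V h') := by
  have key : ∀ n : ℕ, ∀ h : Module.Dual ℝ E, (∀ i ∈ V, h (v i) ≤ 0) → h y ≠ 0 →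
      rk v V ≤ rk v (zs v V h) + n →
      ∃ h' : Module.Dual ℝ E, (∀ i ∈ V, h' (v i) ≤ 0) ∧ zs v V h ⊆ zs v V h' ∧ h' y = h y ∧
      IsFacet v V (zs v V h') := by
    intro n
    induction n with
    | zero =>
      intro h hle hne hr
      exfalso
      apply hne
      have h1 : sp v (zs v V h) = sp v V := sp_eq_of_rk_eq zs_subset (by simpa using hr)
      rw [← h1] at hy
      exact zero_on_sp (fun i hi => (mem_zs.mp hi).2) hy
    | succ n ih =>
      intro h hle hne hr
      have hlt : rk v (zs v V h) < rk v V := by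
        rcases lt_or_eq_of_le (rk_mono (v := v) (zs_subset (v := v) (V := V) (h := h))) with h1 | h1
        · exact h1
        · exfalso
          apply hne
          have h2 : sp v (zs v V h) = sp v V := sp_eq_of_rk_eq zs_subset h1.ge
          rw [← h2] at hy
          exact zero_on_sp (fun i hi => (mem_zs.mp hi).2) hy
      by_cases hc : rk v (zs v V h) + 1 = rk v V
      · exact ⟨h, hle, Finset.Subset.refl _, rfl, isFace_zs hle, hc⟩
      · obtain ⟨h1, hle1, hsub1, hy1, hrk1⟩ := rot_step hle y (by omega)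
        obtain ⟨h2, hle2, hsub2, hy2, hf2⟩ := ih h1 hle1 (by rw [hy1]; exact hne) (by omega)
        exact ⟨h2, hle2, hsub1.trans hsub2, by rw [hy2, hy1], hf2⟩
  exact key (rk v V) h hle hne (by omega)

/-- Every label outside a face is missed by a facet containing the face. -/
lemma IsFace.exists_facet_avoiding {v : ι → E} {V A : Finset ι} (hA : IsFace v V A) {w : ι}
    (hw : w ∈ V) (hwA : w ∉ A) : ∃ B, IsFacet v V B ∧ A ⊆ B ∧ w ∉ B := by
  obtain ⟨hAV, h, hh⟩ := hA
  have hneg := hh.2 w hw hwA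
  obtain ⟨h', hle', hsub, hval, hf⟩ := rot (fun i hi => hh.le hi) (mem_sp hw) hneg.ne
  refine ⟨_, hf, ?_, ?_⟩
  · intro i hi
    apply hsub
    exact mem_zs.mpr ⟨hAV hi, hh.1 i hi⟩
  · intro hc
    have := (mem_zs.mp hc).2
    rw [hval] at this
    exact hneg.ne this

/-- Two functionals exposing a facet are positively proportional on the span. -/
lemma facet_functional_unique {v : ι → E} {V A : Finset ι} (hA : IsFacet v V A)
    {h k : Module.Dual ℝ E} (hh : Exposes v V A h) (hk : Exposes v V A k) :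
    ∃ c : ℝ, 0 < c ∧ ∀ x ∈ sp v V, k x = c * h x := by
  have hlt : sp v A < sp v V := by
    refine lt_of_le_of_ne (sp_mono hA.1.1) ?_
    intro hc
    have h1 := hA.2
    have h2 : rk v A = rk v V := by
      unfold rk
      exact congrArg (fun S : Submodule ℝ E => Module.finrank ℝ S) hc
    omega
  obtain ⟨i0, hi0, hi0A⟩ : ∃ i ∈ V, v i ∉ sp v A := by
    by_contra hcon
    push Not at hcon
    exact absurd (sp_le_iff.mpr hcon) (not_le_of_gt hlt)
  have hi0' : i0 ∉ A := fun hc => hi0A (mem_sp hc)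
  have hh0 := hh.2 i0 hi0 hi0'
  have hk0 := hk.2 i0 hi0 hi0'
  refine ⟨k (v i0) / h (v i0), div_pos_of_neg_of_neg hk0 hh0, ?_⟩
  have hfull : sp v (insert i0 A) = sp v V := by
    apply sp_eq_of_rk_eq (Finset.insert_subset hi0 hA.1.1)
    rw [rk_insert_of_notMem hi0A]
    exact hA.2.ge
  intro x hx
  rw [← hfull, sp_insert] at hx
  obtain ⟨y, hy, z, hz, rfl⟩ := Submodule.mem_sup.mp hx
  obtain ⟨a, rfl⟩ := Submodule.mem_span_singleton.mp hy
  rw [map_add, map_add, zero_on_sp hh.1 hz, zero_on_sp hk.1 hz]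
  simp only [map_smul, smul_eq_mul, add_zero]
  have hne := hh0.ne
  field_simp

end Rank

end Pool.Agent.Helper53.G4
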