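import Pool.Agent.Helper53.G4.Ridge

/-!
Adjacent facets, the simplex step, connectivity of visible facets, closure principle.
-/

set_option autoImplicit false
set_option linter.unusedSectionVars false
set_option linter.unusedVariables false

namespace Pool.Agent.Helper53.G4

open Finset

variable {ι : Type*} [DecidableEq ι] {E : Type*} [AddCommGroup E] [Module ℝ E]
  [FiniteDimensional ℝ E]

lemma Adj.symm {v : ι → E} {V A B : Finset ι} (h : Adj v V A B) : Adj v V B A :=
  ⟨h.2.1, h.1, fun hc => h.2.2.1 hc.symm, by rw [Finset.inter_comm]; exact h.2.2.2⟩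

lemma Adj.isFace_inter {v : ι → E} {V A B : Finset ι} (h : Adj v V A B) :
    IsFace v V (A ∩ B) := h.1.1.inter h.2.1.1

lemma IsFacet.ne_self {v : ι → E} {V A : Finset ι} (h : IsFacet v V A) : A ≠ V := by
  intro hc
  have := h.2
  rw [hc] at this
  omega

/-- a facet of a facet is a face of corank two -/
lemma IsFacet.facet_rk {v : ι → E} {V A D : Finset ι} (hA : IsFacet v V A)
    (hD : IsFacet v A D) : IsFace v V D ∧ rk v D + 2 = rk v V := by
  refine ⟨hA.1.trans hD.1, ?_⟩
  have h1 := hA.2
  have h2 := hD.2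
  omega

lemma Adj.isFacet_inter {v : ι → E} {V A B : Finset ι} (h : Adj v V A B) :
    IsFacet v A (A ∩ B) := by
  refine ⟨h.isFace_inter.restrict h.1.1.1 Finset.inter_subset_left, ?_⟩
  have h1 := h.1.2
  have h2 := h.2.2.2
  omega

/-- Across a ridge of a facet there is exactly one other facet. -/
lemma IsFacet.exists_adj {v : ι → E} {V A D : Finset ι} (hA : IsFacet v V A)
    (hD : IsFacet v A D) : ∃ B, Adj v V A B ∧ A ∩ B = D ∧ ∀ C, IsFacet v V C → D ⊆ C →
      C = A ∨ C = B := by
  obtain ⟨hDf, hr⟩ := hA.facet_rk hD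
  obtain ⟨A', B', hA', hB', hne, hAf, hBf, hAB, _, _, _, huniq⟩ := ridge_facets hDf hr
  rcases huniq A hA hD.1.1 with rfl | rfl
  · refine ⟨B', ⟨hA, hBf, hne, by rw [hAB]; exact hr⟩, hAB, huniq⟩
  · refine ⟨A', ⟨hA, hAf, fun hc => hne hc.symm, by rw [Finset.inter_comm, hAB]; exact hr⟩, ?_, ?_⟩
    · rw [Finset.inter_comm]; exact hAB
    · intro C hC hDC
      exact (huniq C hC hDC).symm

lemma Adj.unique {v : ι → E} {V A B C : Finset ι} (h : Adj v V A B) (hC : IsFacet v V C)
    (hs : A ∩ B ⊆ C) : C = A ∨ C = B := by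
  obtain ⟨A', B', hA', hB', hne, hAf, hBf, hAB, _, _, _, huniq⟩ :=
    ridge_facets h.isFace_inter h.2.2.2
  have h1 := huniq A h.1 Finset.inter_subset_left
  have h2 := huniq B h.2.1 Finset.inter_subset_right
  have h3 := huniq C hC hs
  have h4 := h.2.2.1
  rcases h1 with rfl | rfl <;> rcases h2 with rfl | rfl
  · exact absurd rfl h4
  · exact h3
  · exact h3.symm
  · exact absurd rfl h4

/-- interior vectors -/
def Inner (v : ι → E) (V : Finset ι) (o : E) : Prop :=
  o ∈ sp v V ∧ ∀ h : Module.Dual ℝ E, (∀ i ∈ V, h (v i) ≤ 0) → (∃ i ∈ V, h (v i) < 0) → h o < 0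

lemma inner_sum (v : ι → E) (V : Finset ι) : Inner v V (∑ i ∈ V, v i) := by
  constructor
  · exact Submodule.sum_mem _ (fun i hi => mem_sp hi)
  · intro h hle ⟨i, hi, hlt⟩
    rw [map_sum]
    exact Finset.sum_neg' hle ⟨i, hi, hlt⟩

lemma IsFacet.exists_neg {v : ι → E} {V A : Finset ι} (hA : IsFacet v V A)
    {h : Module.Dual ℝ E} (hh : Exposes v V A h) : ∃ i ∈ V, h (v i) < 0 := by
  by_contra hcon
  push Not at hcon
  apply hA.ne_self
  apply Finset.Subset.antisymm hA.1.1
  intro i hi
  rw [← hh.eq_zero_iff hi]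
  exact le_antisymm (hh.le hi) (hcon i hi)

lemma Inner.neg {v : ι → E} {V A : Finset ι} {o : E} (ho : Inner v V o) (hA : IsFacet v V A)
    {h : Module.Dual ℝ E} (hh : Exposes v V A h) : h o < 0 :=
  ho.2 h (fun i hi => hh.le hi) (hA.exists_neg hh)

/-- Simplex step: if another facet has a bigger normalised value, so does an adjacent one. -/
lemma lp_step {v : ι → E} {V : Finset ι} {o x : E} (ho : Inner v V o) (hx : x ∈ sp v V)
    {A B : Finset ι} (hA : IsFacet v V A) (hB : IsFacet v V B) {a b : Module.Dual ℝ E}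
    (ha : Exposes v V A a) (hb : Exposes v V B b) (hlt : a x / (-a o) < b x / (-b o)) :
    ∃ C c, Adj v V A C ∧ Exposes v V C c ∧ a x / (-a o) < c x / (-c o) := by
  have ha0 : 0 < -a o := by have := ho.neg hA ha; linarith
  have hb0 : 0 < -b o := by have := ho.neg hB hb; linarith
  -- projection of x to the hyperplane of A
  set s : ℝ := a x / (-a o) with hs
  set y : E := x + s • o with hy
  have hsa : s * (-a o) = a x := div_mul_cancel₀ _ ha0.ne'
  have hay : a y = 0 := by
    rw [hy, map_add, map_smul, smul_eq_mul]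
    linarith
  have hby : 0 < b y := by
    rw [hy, map_add, map_smul, smul_eq_mul]
    have h1 : s * (-b o) < b x := by
      rw [lt_div_iff₀ hb0] at hlt
      exact hlt
    linarith
  have hyV : y ∈ sp v V := Submodule.add_mem _ hx (Submodule.smul_mem _ _ ho.1)
  -- y lies in the span of A
  obtain ⟨i0, hi0, hi0neg⟩ := hA.exists_neg ha
  have hi0A : v i0 ∉ sp v A := fun hc => by
    have := zero_on_sp ha.1 hc
    linarith
  have hfull : sp v (insert i0 A) = sp v V := by
    apply sp_eq_of_rk_eq (Finset.insert_subset hi0 hA.1.1)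
    rw [rk_insert_of_notMem hi0A]
    exact hA.2.ge
  have hyA : y ∈ sp v A := by
    have h1 := hyV
    rw [← hfull, sp_insert] at h1
    obtain ⟨u, hu, z, hz, huz⟩ := Submodule.mem_sup.mp h1
    obtain ⟨c, rfl⟩ := Submodule.mem_span_singleton.mp hu
    have h2 : a y = 0 := hay
    rw [← huz, map_add, zero_on_sp ha.1 hz, map_smul, smul_eq_mul, add_zero] at h2
    have hc : c = 0 := by
      rcases mul_eq_zero.mp h2 with h | h
      · exact h
      · exact absurd h hi0neg.ne
    rw [← huz, hc]
    simpa using hz
  have hbA : ∀ i ∈ A, b (v i) ≤ 0 := fun i hi => hb.le (hA.1.1 hi)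
  obtain ⟨d, hdle, _, hdy, hdf⟩ := rot hbA hyA hby.ne'
  obtain ⟨C, hAC, hinter, _⟩ := hA.exists_adj hdf
  obtain ⟨hCV, c, hc⟩ := hAC.2.1.1
  refine ⟨C, c, hAC, hc, ?_⟩
  have hc0 : 0 < -c o := by have := ho.neg hAC.2.1 hc; linarith
  -- c and d are positively proportional on the span of A
  have hcA : Exposes v A (zs v A d) c := by
    rw [← hinter]
    constructor
    · intro i hi
      exact hc.1 i (Finset.mem_inter.mp hi).2
    · intro i hi hn
      apply hc.2 i (hA.1.1 hi)
      intro hiC
      exact hn (Finset.mem_inter.mpr ⟨hi, hiC⟩)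
  have hdA : Exposes v A (zs v A d) d := exposes_zs hdle
  obtain ⟨r, hr, hprop⟩ := facet_functional_unique hdf hdA hcA
  have hcy : 0 < c y := by
    rw [hprop y hyA, hdy]
    exact mul_pos hr hby
  rw [lt_div_iff₀ hc0]
  rw [hy, map_add, map_smul, smul_eq_mul] at hcy
  linarith

/-- There is an interior vector avoiding finitely many hyperplanes (given by functionals that do
not vanish on the span). -/
lemma exists_inner_generic {v : ι → E} {V : Finset ι} (s : Finset (Module.Dual ℝ E))
    (hs : ∀ f ∈ s, ∃ i ∈ V, f (v i) ≠ 0) : ∃ o, Inner v V o ∧ ∀ f ∈ s, f o ≠ 0 := by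
  classical
  -- first a vector y in the span on which no functional of s vanishes
  have key : ∀ t : Finset (Module.Dual ℝ E), (∀ f ∈ t, ∃ i ∈ V, f (v i) ≠ 0) →
      ∃ o, Inner v V o ∧ ∀ f ∈ t, f o ≠ 0 := by
    intro t
    induction t using Finset.induction_on with
    | empty =>
      intro _
      exact ⟨_, inner_sum v V, fun f hf => absurd hf (Finset.notMem_empty _)⟩
    | insert g t hg ih =>
      intro ht
      obtain ⟨o, ho, hne⟩ := ih (fun f hf => ht f (Finset.mem_insert_of_mem hf))
      by_cases hgo : g o = 0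
      · obtain ⟨i, hi, hgi⟩ := ht g (Finset.mem_insert_self _ _)
        -- perturb o by a small positive multiple of v i
        have hfin : ∃ ε : ℝ, 0 < ε ∧ ∀ f ∈ t, f (o + ε • v i) ≠ 0 := by
          have : ∀ u : Finset (Module.Dual ℝ E), (∀ f ∈ u, f o ≠ 0) →
              ∃ ε : ℝ, 0 < ε ∧ ∀ δ : ℝ, 0 < δ → δ ≤ ε → ∀ f ∈ u, f (o + δ • v i) ≠ 0 := by
            intro u
            induction u using Finset.induction_on with
            | empty => intro _; exact ⟨1, one_pos, fun δ _ _ f hf => absurd hf (Finset.notMem_empty _)⟩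
            | insert a u ha ih2 =>
              intro hu
              obtain ⟨ε, hε, hε2⟩ := ih2 (fun f hf => hu f (Finset.mem_insert_of_mem hf))
              have hao := hu a (Finset.mem_insert_self _ _)
              refine ⟨min ε (|a o| / (2 * (|a (v i)| + 1))), lt_min hε (by positivity), ?_⟩
              intro δ hδ hδε f hf
              rcases Finset.mem_insert.mp hf with rfl | hf
              · rw [map_add, map_smul, smul_eq_mul]
                intro hc
                have h1 : δ ≤ |f o| / (2 * (|f (v i)| + 1)) := le_trans hδε (min_le_right _ _)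
                have h2 : 0 < |f o| := abs_pos.mpr hao
                have h3 : |f o| = δ * |f (v i)| := by
                  have : f o = -(δ * f (v i)) := by linarith
                  rw [this, abs_neg, abs_mul, abs_of_pos hδ]
                have h4 : 0 < 2 * (|f (v i)| + 1) := by positivity
                rw [le_div_iff₀ h4] at h1
                nlinarith [abs_nonneg (f (v i))]
              · exact hε2 δ hδ (le_trans hδε (min_le_left _ _)) f hf
          obtain ⟨ε, hε, hε2⟩ := this t hne
          exact ⟨ε, hε, hε2 ε hε le_rfl⟩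
        obtain ⟨ε, hε, hε2⟩ := hfin
        refine ⟨o + ε • v i, ⟨Submodule.add_mem _ ho.1 (Submodule.smul_mem _ _ (mem_sp hi)), ?_⟩, ?_⟩
        · intro h hle hex
          rw [map_add, map_smul, smul_eq_mul]
          have h1 := ho.2 h hle hex
          have h2 : ε * h (v i) ≤ 0 := mul_nonpos_of_nonneg_of_nonpos hε.le (hle i hi)
          linarith
        · intro f hf
          rcases Finset.mem_insert.mp hf with rfl | hf
          · rw [map_add, map_smul, smul_eq_mul, hgo, zero_add]
            exact mul_ne_zero hε.ne' hgi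
          · exact hε2 f hf
      · refine ⟨o, ho, ?_⟩
        intro f hf
        rcases Finset.mem_insert.mp hf with rfl | hf
        · exact hgo
        · exact hne f hf
  exact key s hs

/-- the finite set of all facets -/
noncomputable def facets (v : ι → E) (V : Finset ι) : Finset (Finset ι) := by
  classical exact V.powerset.filter (fun A => IsFacet v V A)

lemma mem_facets {v : ι → E} {V A : Finset ι} : A ∈ facets v V ↔ IsFacet v V A := by
  classical
  unfold facets
  rw [Finset.mem_filter, Finset.mem_powerset]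
  exact ⟨fun h => h.2, fun h => ⟨h.1.1, h⟩⟩

lemma rtg_symm {α : Type*} {r : α → α → Prop} (hr : ∀ a b, r a b → r b a) {a b : α}
    (h : Relation.ReflTransGen r a b) : Relation.ReflTransGen r b a := by
  induction h with
  | refl => exact Relation.ReflTransGen.refl
  | tail _ h2 ih => exact Relation.ReflTransGen.head (hr _ _ h2) ih

lemma rtg_mono {α : Type*} {r s : α → α → Prop} (hr : ∀ a b, r a b → s a b) {a b : α}
    (h : Relation.ReflTransGen r a b) : Relation.ReflTransGen s a b := by
  induction h with
  | refl => exact Relation.ReflTransGen.refl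
  | tail _ h2 ih => exact Relation.ReflTransGen.tail ih (hr _ _ h2)

/-- A visible facet. -/
def Vis (v : ι → E) (V : Finset ι) (x : E) (A : Finset ι) : Prop :=
  IsFacet v V A ∧ Beyond v V A x

/-- chosen exposing functional -/
noncomputable def fn (v : ι → E) (V A : Finset ι) : Module.Dual ℝ E := by
  classical exact if h : IsFace v V A then h.2.choose else 0

lemma fn_exposes {v : ι → E} {V A : Finset ι} (h : IsFace v V A) : Exposes v V A (fn v V A) := by
  unfold fn
  rw [dif_pos h]
  exact h.2.choose_spec

lemma beyond_iff {v : ι → E} {V A : Finset ι} (hA : IsFacet v V A) {x : E} (hx : x ∈ sp v V)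
    {h : Module.Dual ℝ E} (hh : Exposes v V A h) : Beyond v V A x ↔ 0 < h x := by
  constructor
  · rintro ⟨k, hk, hkx⟩
    obtain ⟨c, hc, hcx⟩ := facet_functional_unique hA hk hh
    rw [hcx x hx]
    exact mul_pos hc hkx
  · intro h0
    exact ⟨h, hh, h0⟩

lemma beneath_iff {v : ι → E} {V A : Finset ι} (hA : IsFacet v V A) {x : E} (hx : x ∈ sp v V)
    {h : Module.Dual ℝ E} (hh : Exposes v V A h) : Beneath v V A x ↔ h x < 0 := by
  constructor
  · rintro ⟨k, hk, hkx⟩
    obtain ⟨c, hc, hcx⟩ := facet_functional_unique hA hk hh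
    rw [hcx x hx]
    exact mul_neg_of_pos_of_neg hc hkx
  · intro h0
    exact ⟨h, hh, h0⟩

lemma on_iff {v : ι → E} {V A : Finset ι} (hA : IsFacet v V A) {x : E} (hx : x ∈ sp v V)
    {h : Module.Dual ℝ E} (hh : Exposes v V A h) : On v V A x ↔ h x = 0 := by
  constructor
  · rintro ⟨k, hk, hkx⟩
    obtain ⟨c, hc, hcx⟩ := facet_functional_unique hA hk hh
    rw [hcx x hx, hkx, mul_zero]
  · intro h0
    exact ⟨h, hh, h0⟩

/-- The facets visible from a vector are connected. -/
theorem vis_connected {v : ι → E} {V : Finset ι} {x : E} (hx : x ∈ sp v V) {A B : Finset ι}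
    (hA : Vis v V x A) (hB : Vis v V x B) :
    Relation.ReflTransGen (fun C D => Vis v V x C ∧ Vis v V x D ∧ Adj v V C D) A B := by
  classical
  -- functionals of facets
  set F := facets v V with hF
  -- difference functionals for pairs of different visible facets
  set s : Finset (Module.Dual ℝ E) := ((F ×ˢ F).filter (fun p => p.1 ≠ p.2 ∧ fn v V p.1 x ≠ 0)).image
    (fun p => (fn v V p.1 x) • (fn v V p.2) - (fn v V p.2 x) • (fn v V p.1)) with hs
  have hsne : ∀ f ∈ s, ∃ i ∈ V, f (v i) ≠ 0 := by
    intro f hf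
    rw [hs, Finset.mem_image] at hf
    obtain ⟨⟨P, Q⟩, hPQ, rfl⟩ := hf
    rw [Finset.mem_filter, Finset.mem_product] at hPQ
    obtain ⟨⟨hP, hQ⟩, hne, hPx⟩ := hPQ
    rw [hF, mem_facets] at hP hQ
    simp only at hP hQ hne hPx ⊢
    have heP := fn_exposes hP.1
    have heQ := fn_exposes hQ.1
    by_contra hcon
    push Not at hcon
    -- then the zero set of P is contained in that of Q
    have hsub : P ⊆ Q := by
      intro i hi
      have hiV := hP.1.1 hi
      have h1 := hcon i hiV
      simp only [LinearMap.sub_apply, LinearMap.smul_apply, smul_eq_mul] at h1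
      rw [heP.1 i hi, mul_zero, sub_zero] at h1
      rcases mul_eq_zero.mp h1 with h2 | h2
      · exact absurd h2 hPx
      · exact (heQ.eq_zero_iff hiV).mp h2
    apply hne
    apply hP.1.eq_of_rk hQ.1.1 hsub
    have h1 := hP.2
    have h2 := hQ.2
    omega
  obtain ⟨o, ho, hone⟩ := exists_inner_generic s hsne
  -- normalised value
  set φ : Finset ι → ℝ := fun C => fn v V C x / (-(fn v V C o)) with hφ
  have hneg : ∀ C, IsFacet v V C → 0 < -(fn v V C o) := fun C hC => by
    have := ho.neg hC (fn_exposes hC.1); linarith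
  have hinj : ∀ C D, Vis v V x C → IsFacet v V D → C ≠ D → φ C ≠ φ D := by
    intro C D hC hD hne hc
    have hCx : fn v V C x ≠ 0 := by
      have := (beyond_iff hC.1 hx (fn_exposes hC.1.1)).mp hC.2
      exact this.ne'
    have hmem : (fn v V C x) • (fn v V D) - (fn v V D x) • (fn v V C) ∈ s := by
      rw [hs, Finset.mem_image]
      refine ⟨(C, D), ?_, rfl⟩
      rw [Finset.mem_filter, Finset.mem_product]
      exact ⟨⟨mem_facets.mpr hC.1, mem_facets.mpr hD⟩, hne, hCx⟩
    apply hone _ hmem
    simp only [LinearMap.sub_apply, LinearMap.smul_apply, smul_eq_mul]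
    have h1 := hneg C hC.1
    have h2 := hneg D hD
    have h3 : fn v V C x / (-(fn v V C o)) = fn v V D x / (-(fn v V D o)) := hc
    rw [div_eq_div_iff h1.ne' h2.ne'] at h3
    linarith
  -- the maximal visible facet
  obtain ⟨T, hTF, hTmax⟩ := Finset.exists_max_image F φ ⟨A, mem_facets.mpr hA.1⟩
  rw [hF, mem_facets] at hTF
  have vis_iff : ∀ C, IsFacet v V C → (Vis v V x C ↔ 0 < φ C) := by
    intro C hC
    have h1 := hneg C hC
    constructor
    · intro h
      exact div_pos ((beyond_iff hC hx (fn_exposes hC.1)).mp h.2) h1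
    · intro h
      refine ⟨hC, (beyond_iff hC hx (fn_exposes hC.1)).mpr ?_⟩
      by_contra hcon
      push Not at hcon
      have h2 : φ C ≤ 0 := div_nonpos_of_nonpos_of_nonneg hcon h1.le
      linarith
  -- climbing
  have climb : ∀ n : ℕ, ∀ C, Vis v V x C → (F.filter (fun D => φ C < φ D)).card ≤ n →
      Relation.ReflTransGen (fun C D => Vis v V x C ∧ Vis v V x D ∧ Adj v V C D) C T := by
    intro n
    induction n with
    | zero =>
      intro C hC hcard
      have h1 : F.filter (fun D => φ C < φ D) = ∅ := Finset.card_eq_zero.mp (Nat.le_zero.mp hcard)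
      have h2 : ¬ φ C < φ T := by
        intro h
        have : T ∈ F.filter (fun D => φ C < φ D) :=
          Finset.mem_filter.mpr ⟨mem_facets.mpr hTF, h⟩
        rw [h1] at this
        exact Finset.notMem_empty _ this
      have h3 : φ C ≤ φ T := hTmax C (mem_facets.mpr hC.1)
      by_cases hCT : C = T
      · rw [hCT]
      · exact absurd (lt_of_le_of_ne h3 (hinj C T hC hTF hCT)) h2
    | succ n ih =>
      intro C hC hcard
      by_cases hCT : C = T
      · rw [hCT]
      · have h3 : φ C < φ T := lt_of_le_of_ne (hTmax C (mem_facets.mpr hC.1)) (hinj C T hC hTF hCT)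
        obtain ⟨D, d, hadj, hd, hlt⟩ := lp_step ho hx hC.1 hTF (fn_exposes hC.1.1)
          (fn_exposes hTF.1) h3
        have hDf := hadj.2.1
        obtain ⟨c, hc, hcx⟩ := facet_functional_unique hDf (fn_exposes hDf.1) hd
        have hφD : φ C < φ D := by
          have h4 : d x / (-(d o)) = φ D := by
            rw [hcx x hx, hcx o ho.1, hφ]
            simp only
            rw [← mul_neg, mul_div_mul_left _ _ hc.ne']
          rw [← h4]
          exact hlt
        have hDvis : Vis v V x D := by
          rw [vis_iff D hDf]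
          exact lt_trans ((vis_iff C hC.1).mp hC) hφD
        have hcard' : (F.filter (fun D' => φ D < φ D')).card ≤ n := by
          have hss : F.filter (fun D' => φ D < φ D') ⊂ F.filter (fun D' => φ C < φ D') := by
            rw [Finset.ssubset_iff_of_subset]
            · refine ⟨D, Finset.mem_filter.mpr ⟨mem_facets.mpr hDf, hφD⟩, ?_⟩
              rw [Finset.mem_filter]
              intro h
              exact lt_irrefl _ h.2
            · intro D' hD'
              rw [Finset.mem_filter] at hD' ⊢
              exact ⟨hD'.1, lt_trans hφD hD'.2⟩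
          have := Finset.card_lt_card hss
          omega
        exact Relation.ReflTransGen.head ⟨hC, hDvis, hadj⟩ (ih D hDvis hcard')
  have hAT := climb _ A hA le_rfl
  have hBT := climb _ B hB le_rfl
  refine hAT.trans ?_
  exact rtg_symm (fun C D h => ⟨h.2.1, h.1, h.2.2.symm⟩) hBT

/-- All facets are connected through adjacency. -/
theorem facets_connected {v : ι → E} {V : Finset ι} {A B : Finset ι} (hA : IsFacet v V A)
    (hB : IsFacet v V B) : Relation.ReflTransGen (Adj v V) A B := by
  have ho := inner_sum v V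
  have hx : -(∑ i ∈ V, v i) ∈ sp v V := Submodule.neg_mem _ ho.1
  have hvis : ∀ C, IsFacet v V C → Vis v V (-(∑ i ∈ V, v i)) C := by
    intro C hC
    refine ⟨hC, fn v V C, fn_exposes hC.1, ?_⟩
    rw [map_neg]
    have := ho.neg hC (fn_exposes hC.1)
    linarith
  exact rtg_mono (fun _ _ h => h.2.2) (vis_connected hx (hvis A hA) (hvis B hB))

/-- Facets through a boundary vector are connected. -/
theorem star_connected {v : ι → E} {V : Finset ι} {w : E} (hw : w ∈ sp v V)
    (hle : ∀ C, IsFacet v V C → ∀ h, Exposes v V C h → h w ≤ 0) {A B : Finset ι}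
    (hA : IsFacet v V A) (hB : IsFacet v V B) (hAw : On v V A w) (hBw : On v V B w) :
    Relation.ReflTransGen (fun C D => On v V C w ∧ On v V D w ∧ Adj v V C D) A B := by
  classical
  have ho := inner_sum v V
  set o := ∑ i ∈ V, v i with hodef
  -- a small outward push
  have hpush : ∃ δ : ℝ, 0 < δ ∧ ∀ C ∈ facets v V, fn v V C w < 0 → fn v V C (w - δ • o) < 0 := by
    have : ∀ s : Finset (Finset ι), s ⊆ facets v V → ∃ δ : ℝ, 0 < δ ∧ ∀ δ' : ℝ, 0 < δ' → δ' ≤ δ →
        ∀ C ∈ s, fn v V C w < 0 → fn v V C (w - δ' • o) < 0 := by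
      intro s
      induction s using Finset.induction_on with
      | empty => intro _; exact ⟨1, one_pos, fun _ _ _ C hC => absurd hC (Finset.notMem_empty _)⟩
      | insert a s ha ih =>
        intro hs
        obtain ⟨δ, hδ, hδ2⟩ := ih (fun C hC => hs (Finset.mem_insert_of_mem hC))
        by_cases haw : fn v V a w < 0
        · have haf := mem_facets.mp (hs (Finset.mem_insert_self _ _))
          have hao := ho.neg haf (fn_exposes haf.1)
          refine ⟨min δ (fn v V a w / (2 * fn v V a o)), lt_min hδ
            (div_pos_of_neg_of_neg haw (by linarith)), ?_⟩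
          intro δ' hδ' hle' C hC hCw
          rcases Finset.mem_insert.mp hC with rfl | hC
          · rw [map_sub, map_smul, smul_eq_mul]
            have h1 : δ' ≤ fn v V C w / (2 * fn v V C o) := le_trans hle' (min_le_right _ _)
            have h2 : 2 * fn v V C o < 0 := by linarith
            rw [le_div_iff_of_neg h2] at h1
            nlinarith
          · exact hδ2 δ' hδ' (le_trans hle' (min_le_left _ _)) C hC hCw
        · refine ⟨δ, hδ, ?_⟩
          intro δ' hδ' hle' C hC hCw
          rcases Finset.mem_insert.mp hC with rfl | hC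
          · exact absurd hCw haw
          · exact hδ2 δ' hδ' hle' C hC hCw
    obtain ⟨δ, hδ, hδ2⟩ := this _ (Finset.Subset.refl _)
    exact ⟨δ, hδ, hδ2 δ hδ le_rfl⟩
  obtain ⟨δ, hδ, hδ2⟩ := hpush
  have hx : w - δ • o ∈ sp v V := Submodule.sub_mem _ hw (Submodule.smul_mem _ _ ho.1)
  have hiff : ∀ C, IsFacet v V C → (Vis v V (w - δ • o) C ↔ On v V C w) := by
    intro C hC
    have he := fn_exposes hC.1
    have h0 := ho.neg hC he
    rw [on_iff hC hw he]
    constructor
    · intro h
      have h1 := (beyond_iff hC hx he).mp h.2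
      have h2 := hle C hC _ he
      by_contra hne
      have h3 := hδ2 C (mem_facets.mpr hC) (lt_of_le_of_ne h2 hne)
      linarith
    · intro h
      refine ⟨hC, (beyond_iff hC hx he).mpr ?_⟩
      rw [map_sub, map_smul, smul_eq_mul, h]
      have : δ * fn v V C o < 0 := mul_neg_of_pos_of_neg hδ h0
      linarith
  refine rtg_mono ?_ (vis_connected hx ((hiff A hA).mpr hAw) ((hiff B hB).mpr hBw))
  intro C D h
  exact ⟨(hiff C h.1.1).mp h.1, (hiff D h.2.1.1).mp h.2.1, h.2.2⟩

/-- Closure principle: a nonempty family of facets closed under adjacency consists of all facets. -/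
theorem closure_facets {v : ι → E} {V : Finset ι} (G : Finset ι → Prop)
    (hne : ∃ A, IsFacet v V A ∧ G A)
    (hcl : ∀ A, IsFacet v V A → G A → ∀ D, IsFacet v A D → ∃ B, IsFacet v V B ∧ G B ∧ B ≠ A ∧ D ⊆ B) :
    ∀ A, IsFacet v V A → G A := by
  obtain ⟨A, hA, hGA⟩ := hne
  intro B hB
  have h := facets_connected hA hB
  induction h with
  | refl => exact hGA
  | tail h1 h2 ih =>
    rename_i C D
    have hGC : G C := ih h2.1
    obtain ⟨B', hB', hGB', hne', hsub⟩ := hcl C h2.1 hGC (C ∩ D) h2.isFacet_inter
    rcases h2.unique hB' hsub with h3 | h3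
    · exact absurd h3 hne'
    · rw [← h3]; exact hGB'

end Pool.Agent.Helper53.G4
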