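import Mathlib

/-!
Finite vector configurations (homogenised polytopes): a finite set `V` of labels and vectors `v i`.
Faces are recorded by their label sets.
-/

set_option autoImplicit false

namespace Pool.Agent.Helper53.G4

open Finset

section Defs

variable {ι : Type*} [DecidableEq ι] {E : Type*} [AddCommGroup E] [Module ℝ E]

/-- `h` exposes the label set `A` inside `V`. -/
def Exposes (v : ι → E) (V A : Finset ι) (h : Module.Dual ℝ E) : Prop :=
  (∀ i ∈ A, h (v i) = 0) ∧ ∀ i ∈ V, i ∉ A → h (v i) < 0

/-- `A` is the label set of a face of the cone spanned by the vectors `v i`, `i ∈ V`. -/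
def IsFace (v : ι → E) (V A : Finset ι) : Prop :=
  A ⊆ V ∧ ∃ h : Module.Dual ℝ E, Exposes v V A h

/-- Rank of a label set. -/
noncomputable def rk (v : ι → E) (A : Finset ι) : ℕ :=
  Module.finrank ℝ (Submodule.span ℝ (v '' (A : Set ι)))

/-- Facet: a face of rank one less than the whole configuration. -/
def IsFacet (v : ι → E) (V A : Finset ι) : Prop :=
  IsFace v V A ∧ rk v A + 1 = rk v V

/-- The cone is pointed and every label is an extreme ray. -/
structure Proper (v : ι → E) (V : Finset ι) : Prop where
  pointed : IsFace v V ∅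
  ext : ∀ i ∈ V, IsFace v V {i}

/-- `A` and `B` are different facets meeting in a ridge. -/
def Adj (v : ι → E) (V A B : Finset ι) : Prop :=
  IsFacet v V A ∧ IsFacet v V B ∧ A ≠ B ∧ rk v (A ∩ B) + 2 = rk v V

/-- `x` is strictly beyond the facet `A`. -/
def Beyond (v : ι → E) (V A : Finset ι) (x : E) : Prop :=
  ∃ h : Module.Dual ℝ E, Exposes v V A h ∧ 0 < h x

/-- `x` is strictly beneath the facet `A`. -/
def Beneath (v : ι → E) (V A : Finset ι) (x : E) : Prop :=
  ∃ h : Module.Dual ℝ E, Exposes v V A h ∧ h x < 0

/-- `x` lies on the hyperplane of the facet `A`. -/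
def On (v : ι → E) (V A : Finset ι) (x : E) : Prop :=
  ∃ h : Module.Dual ℝ E, Exposes v V A h ∧ h x = 0

end Defs

end Pool.Agent.Helper53.G4
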