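import Pool.Agent.Helper53.G4.Base

/-!
A face of corank two lies in exactly two facets.
-/

set_option autoImplicit false
set_option linter.unusedSectionVars false
set_option linter.unusedVariables false

namespace Pool.Agent.Helper53.G4

open Finset

variable {ι : Type*} [DecidableEq ι] {E : Type*} [AddCommGroup E] [Module ℝ E]
  [FiniteDimensional ℝ E]

theorem ridge_facets {v : ι → E} {V D : Finset ι} (hD : IsFace v V D)
    (hr : rk v D + 2 = rk v V) :
    ∃ (A B : Finset ι) (hA hB : Module.Dual ℝ E), A ≠ B ∧ IsFacet v V A ∧ IsFacet v V B ∧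
      A ∩ B = D ∧ Exposes v V A hA ∧ Exposes v V B hB ∧
      (∀ h : Module.Dual ℝ E, (∀ i ∈ V, h (v i) ≤ 0) → (∀ i ∈ D, h (v i) = 0) →
        ∃ a b : ℝ, 0 ≤ a ∧ 0 ≤ b ∧ ∀ x ∈ sp v V, h x = a * hA x + b * hB x) ∧
      (∀ C, IsFacet v V C → D ⊆ C → C = A ∨ C = B) := by
  classical
  obtain ⟨hDV, h0, he0⟩ := hD
  have hDface : IsFace v V D := ⟨hDV, h0, he0⟩
  -- choose two labels completing the span
  obtain ⟨i0, hi0, hi0S⟩ : ∃ i ∈ V, v i ∉ sp v D := by
    by_contra hcon
    push Not at hcon
    have h1 := Submodule.finrank_mono (sp_le_iff.mpr hcon)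
    have h2 : Module.finrank ℝ (sp v V) = rk v V := rfl
    have h3 : Module.finrank ℝ (sp v D) = rk v D := rfl
    omega
  have hrk0 : rk v (insert i0 D) = rk v D + 1 := rk_insert_of_notMem hi0S
  obtain ⟨i1, hi1, hi1S⟩ : ∃ i ∈ V, v i ∉ sp v (insert i0 D) := by
    by_contra hcon
    push Not at hcon
    have h1 := Submodule.finrank_mono (sp_le_iff.mpr hcon)
    have h2 : Module.finrank ℝ (sp v V) = rk v V := rfl
    have h3 : Module.finrank ℝ (sp v (insert i0 D)) = rk v (insert i0 D) := rfl
    omega
  have hrk1 : rk v (insert i1 (insert i0 D)) = rk v D + 2 := by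
    rw [rk_insert_of_notMem hi1S, hrk0]
  have hfull : sp v (insert i1 (insert i0 D)) = sp v V := by
    apply sp_eq_of_rk_eq
    · exact Finset.insert_subset hi1 (Finset.insert_subset hi0 hDV)
    · omega
  have hi0D : i0 ∉ D := fun hc => hi0S (mem_sp hc)
  have hi1D : i1 ∉ D := fun hc => hi1S (mem_sp (Finset.mem_insert_of_mem hc))
  have hh00 : h0 (v i0) < 0 := he0.2 i0 hi0 hi0D
  have hh01 : h0 (v i1) < 0 := he0.2 i1 hi1 hi1D
  obtain ⟨k, hk0, hk1⟩ := exists_dual_of_notMem hi1S
  have hkD : ∀ i ∈ D, k (v i) = 0 := fun i hi => hk0 _ (mem_sp (Finset.mem_insert_of_mem hi))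
  have hki0 : k (v i0) = 0 := hk0 _ (mem_sp (Finset.mem_insert_self _ _))
  set W : Finset ι := V.filter (fun i => i ∉ D) with hW
  have hWne : W.Nonempty := ⟨i0, Finset.mem_filter.mpr ⟨hi0, hi0D⟩⟩
  obtain ⟨mp, hmpW, hmax⟩ := Finset.exists_max_image W (fun i => k (v i) / (-h0 (v i))) hWne
  obtain ⟨mm, hmmW, hmin⟩ := Finset.exists_min_image W (fun i => k (v i) / (-h0 (v i))) hWne
  have hmpV : mp ∈ V := (Finset.mem_filter.mp hmpW).1
  have hmmV : mm ∈ V := (Finset.mem_filter.mp hmmW).1
  have hmp0 : h0 (v mp) < 0 := he0.2 mp hmpV (Finset.mem_filter.mp hmpW).2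
  have hmm0 : h0 (v mm) < 0 := he0.2 mm hmmV (Finset.mem_filter.mp hmmW).2
  set M : ℝ := k (v mp) / (-h0 (v mp)) with hM
  set m : ℝ := k (v mm) / (-h0 (v mm)) with hm
  have hMpos : 0 < M := by
    have h1 := hmax i1 (Finset.mem_filter.mpr ⟨hi1, hi1D⟩)
    have h2 : 0 < k (v i1) / (-h0 (v i1)) := div_pos hk1 (by linarith)
    exact lt_of_lt_of_le h2 h1
  have hmle : m ≤ 0 := by
    have h1 := hmin i0 (Finset.mem_filter.mpr ⟨hi0, hi0D⟩)
    have h1' : m ≤ k (v i0) / (-h0 (v i0)) := h1
    rw [hki0, zero_div] at h1'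
    exact h1'
  have hle_max : ∀ i ∈ V, k (v i) + M * h0 (v i) ≤ 0 := by
    intro i hi
    by_cases hiD : i ∈ D
    · rw [hkD i hiD, he0.1 i hiD]; simp
    · have h1 : k (v i) / (-h0 (v i)) ≤ M := hmax i (Finset.mem_filter.mpr ⟨hi, hiD⟩)
      have h2 : 0 < -h0 (v i) := by have := he0.2 i hi hiD; linarith
      rw [div_le_iff₀ h2] at h1
      linarith
  have hge_min : ∀ i ∈ V, -(k (v i) + m * h0 (v i)) ≤ 0 := by
    intro i hi
    by_cases hiD : i ∈ D
    · rw [hkD i hiD, he0.1 i hiD]; simp
    · have h1 : m ≤ k (v i) / (-h0 (v i)) := hmin i (Finset.mem_filter.mpr ⟨hi, hiD⟩)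
      have h2 : 0 < -h0 (v i) := by have := he0.2 i hi hiD; linarith
      rw [le_div_iff₀ h2] at h1
      linarith
  have hkmp : k (v mp) = -(M * h0 (v mp)) := by
    have hne := hmp0.ne
    rw [hM]
    field_simp
  have hkmm : k (v mm) = -(m * h0 (v mm)) := by
    have hne := hmm0.ne
    rw [hm]
    field_simp
  set hp : Module.Dual ℝ E := k + M • h0 with hhp
  set hn : Module.Dual ℝ E := -(k + m • h0) with hhn
  have hpv : ∀ x, hp x = k x + M * h0 x := fun x => by simp [hhp]
  have hnv : ∀ x, hn x = -(k x + m * h0 x) := fun x => by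
    rw [hhn]
    simp only [LinearMap.neg_apply, LinearMap.add_apply, LinearMap.smul_apply, smul_eq_mul]
  have hple : ∀ i ∈ V, hp (v i) ≤ 0 := fun i hi => by rw [hpv]; exact hle_max i hi
  have hnle : ∀ i ∈ V, hn (v i) ≤ 0 := fun i hi => by rw [hnv]; exact hge_min i hi
  set A := zs v V hp with hAdef
  set B := zs v V hn with hBdef
  have heA : Exposes v V A hp := exposes_zs hple
  have heB : Exposes v V B hn := exposes_zs hnle
  have hDA : D ⊆ A := by
    intro i hi
    rw [hAdef, mem_zs]
    refine ⟨hDV hi, ?_⟩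
    rw [hpv, hkD i hi, he0.1 i hi]; ring
  have hDB : D ⊆ B := by
    intro i hi
    rw [hBdef, mem_zs]
    refine ⟨hDV hi, ?_⟩
    rw [hnv, hkD i hi, he0.1 i hi]; ring
  have hrkA : rk v A + 1 = rk v V := by
    have h1 : insert mp D ⊆ A := by
      apply Finset.insert_subset _ hDA
      rw [hAdef, mem_zs]
      refine ⟨hmpV, ?_⟩
      rw [hpv, hkmp]; ring
    have h2 : v mp ∉ sp v D := fun hc => by
      have := zero_on_sp he0.1 hc
      linarith
    have h3 := rk_mono (v := v) h1
    rw [rk_insert_of_notMem h2] at h3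
    have h4 : v i0 ∉ sp v A := by
      intro hc
      have h5 := zero_on_sp heA.1 hc
      rw [hpv, hki0] at h5
      have : M * h0 (v i0) < 0 := mul_neg_of_pos_of_neg hMpos hh00
      linarith
    have h6 := rk_insert_of_notMem h4
    have h7 := rk_mono (v := v) (Finset.insert_subset hi0 (zs_subset (v := v) (V := V) (h := hp)))
    rw [← hAdef] at h7
    omega
  have hrkB : rk v B + 1 = rk v V := by
    have h1 : insert mm D ⊆ B := by
      apply Finset.insert_subset _ hDB
      rw [hBdef, mem_zs]
      refine ⟨hmmV, ?_⟩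
      rw [hnv, hkmm]; ring
    have h2 : v mm ∉ sp v D := fun hc => by
      have := zero_on_sp he0.1 hc
      linarith
    have h3 := rk_mono (v := v) h1
    rw [rk_insert_of_notMem h2] at h3
    have h4 : v i1 ∉ sp v B := by
      intro hc
      have h5 := zero_on_sp heB.1 hc
      rw [hnv] at h5
      have : 0 ≤ m * h0 (v i1) := mul_nonneg_of_nonpos_of_nonpos hmle hh01.le
      linarith
    have h6 := rk_insert_of_notMem h4
    have h7 := rk_mono (v := v) (Finset.insert_subset hi1 (zs_subset (v := v) (V := V) (h := hn)))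
    rw [← hBdef] at h7
    omega
  have hAf : IsFacet v V A := ⟨isFace_zs hple, hrkA⟩
  have hBf : IsFacet v V B := ⟨isFace_zs hnle, hrkB⟩
  have hAB : A ∩ B = D := by
    apply Finset.Subset.antisymm
    · intro i hi
      rw [Finset.mem_inter] at hi
      have h1 := (mem_zs.mp hi.1).2
      have h2 := (mem_zs.mp hi.2).2
      have hiV := (mem_zs.mp hi.1).1
      rw [hpv] at h1
      rw [hnv] at h2
      have h3 : (M - m) * h0 (v i) = 0 := by linarith
      have h4 : M - m ≠ 0 := by
        have : 0 < M - m := by linarith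
        exact this.ne'
      have h5 : h0 (v i) = 0 := by
        rcases mul_eq_zero.mp h3 with h | h
        · exact absurd h h4
        · exact h
      exact (he0.eq_zero_iff hiV).mp h5
    · exact Finset.subset_inter hDA hDB
  have hcone : ∀ h : Module.Dual ℝ E, (∀ i ∈ V, h (v i) ≤ 0) → (∀ i ∈ D, h (v i) = 0) →
        ∃ a b : ℝ, 0 ≤ a ∧ 0 ≤ b ∧ ∀ x ∈ sp v V, h x = a * hp x + b * hn x := by
    intro h hle hz
    set β : ℝ := h (v i0) / h0 (v i0) with hβ
    set α : ℝ := (h (v i1) - β * h0 (v i1)) / k (v i1) with hα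
    have e0 : h (v i0) = β * h0 (v i0) := by
      have hne := hh00.ne
      rw [hβ]; field_simp
    have e1 : h (v i1) = α * k (v i1) + β * h0 (v i1) := by
      rw [hα]
      have := hk1.ne'
      field_simp
      ring
    have hx : ∀ x ∈ sp v V, h x = α * k x + β * h0 x := by
      intro x hx
      rw [← hfull, sp_insert] at hx
      obtain ⟨y, hy, z, hz', rfl⟩ := Submodule.mem_sup.mp hx
      obtain ⟨c, rfl⟩ := Submodule.mem_span_singleton.mp hy
      rw [sp_insert] at hz'
      obtain ⟨y', hy', z', hz'', rfl⟩ := Submodule.mem_sup.mp hz'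
      obtain ⟨c', rfl⟩ := Submodule.mem_span_singleton.mp hy'
      simp only [map_add, map_smul, smul_eq_mul]
      rw [zero_on_sp hz hz'', zero_on_sp hkD hz'', zero_on_sp he0.1 hz'', hki0, e0, e1]
      ring
    have hposM : 0 ≤ β - α * M := by
      have h1 := hle mp hmpV
      rw [hx _ (mem_sp hmpV), hkmp] at h1
      by_contra hc
      push Not at hc
      have : 0 < (β - α * M) * h0 (v mp) := mul_pos_of_neg_of_neg hc hmp0
      nlinarith
    have hposm : 0 ≤ β - α * m := by
      have h1 := hle mm hmmV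
      rw [hx _ (mem_sp hmmV), hkmm] at h1
      by_contra hc
      push Not at hc
      have : 0 < (β - α * m) * h0 (v mm) := mul_pos_of_neg_of_neg hc hmm0
      nlinarith
    have hMm : 0 < M - m := by linarith
    refine ⟨(β - α * m) / (M - m), (β - α * M) / (M - m), div_nonneg hposm hMm.le,
      div_nonneg hposM hMm.le, ?_⟩
    intro x hx'
    rw [hx x hx', hpv, hnv]
    field_simp
    ring
  refine ⟨A, B, hp, hn, ?_, hAf, hBf, hAB, heA, heB, hcone, ?_⟩
  · intro hc
    rw [← hc, Finset.inter_self] at hAB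
    rw [hAB] at hrkA
    omega
  · intro C hC hDC
    obtain ⟨hCV, h, hh⟩ := hC.1
    obtain ⟨a, b, ha, hb, hx⟩ := hcone h (fun i hi => hh.le hi) (fun i hi => hh.1 i (hDC hi))
    have hlt : rk v C < rk v V := by have := hC.2; omega
    rcases eq_or_lt_of_le ha with ha0 | hapos
    · rcases eq_or_lt_of_le hb with hb0 | hbpos
      · exfalso
        have : C = V := by
          apply Finset.Subset.antisymm hCV
          intro i hi
          rw [← hh.eq_zero_iff hi, hx _ (mem_sp hi), ← ha0, ← hb0]
          ring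
        rw [this] at hlt
        exact lt_irrefl _ hlt
      · right
        ext i
        constructor
        · intro hi
          have hiV := hCV hi
          have h1 := (hh.eq_zero_iff hiV).mpr hi
          rw [hx _ (mem_sp hiV), ← ha0, zero_mul, zero_add] at h1
          rcases mul_eq_zero.mp h1 with h2 | h2
          · exact absurd h2 hbpos.ne'
          · exact (heB.eq_zero_iff hiV).mp h2
        · intro hi
          have hiV := hBf.1.1 hi
          rw [← hh.eq_zero_iff hiV, hx _ (mem_sp hiV), ← ha0, heB.1 i hi]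
          ring
    · rcases eq_or_lt_of_le hb with hb0 | hbpos
      · left
        ext i
        constructor
        · intro hi
          have hiV := hCV hi
          have h1 := (hh.eq_zero_iff hiV).mpr hi
          rw [hx _ (mem_sp hiV), ← hb0, zero_mul, add_zero] at h1
          rcases mul_eq_zero.mp h1 with h2 | h2
          · exact absurd h2 hapos.ne'
          · exact (heA.eq_zero_iff hiV).mp h2
        · intro hi
          have hiV := hAf.1.1 hi
          rw [← hh.eq_zero_iff hiV, hx _ (mem_sp hiV), ← hb0, heA.1 i hi]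
          ring
      · exfalso
        have hCD : C ⊆ D := by
          intro i hi
          have hiV := hCV hi
          have h1 := (hh.eq_zero_iff hiV).mpr hi
          rw [hx _ (mem_sp hiV)] at h1
          have h2 := heA.le hiV
          have h3 := heB.le hiV
          have h4 : a * hp (v i) ≤ 0 := mul_nonpos_of_nonneg_of_nonpos hapos.le h2
          have h5 : b * hn (v i) ≤ 0 := mul_nonpos_of_nonneg_of_nonpos hbpos.le h3
          have h6 : a * hp (v i) = 0 := by linarith
          have h7 : b * hn (v i) = 0 := by linarith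
          have h8 : hp (v i) = 0 := by
            rcases mul_eq_zero.mp h6 with h | h
            · exact absurd h hapos.ne'
            · exact h
          have h9 : hn (v i) = 0 := by
            rcases mul_eq_zero.mp h7 with h | h
            · exact absurd h hbpos.ne'
            · exact h
          rw [← hAB, Finset.mem_inter]
          exact ⟨(heA.eq_zero_iff hiV).mp h8, (heB.eq_zero_iff hiV).mp h9⟩
        have h1 := rk_mono (v := v) hCD
        have h2 := hC.2
        omega

end Pool.Agent.Helper53.G4
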